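import Pool.Agent.Helper242.RK.Log
import Pool.Agent.W187.CV.Stm

/-! Part CV-ROOT of project CV (owner helper187). -/


set_option autoImplicit false

namespace Pool.Agent.W832.CV

open Complex Filter Topology Set

theorem rootAux (Q : ℂ → ℂ) (hQ : ∀ x ∈ Icc (0 : ℝ) 2, AnalyticAt ℂ Q (x : ℂ))
    (h0 : ∀ x ∈ Icc (0 : ℝ) 2, Q (x : ℂ) ≠ 0) :
    ∃ (N : ℕ) (R : ℂ → ℂ), 0 < N ∧ (∀ x ∈ Icc (0 : ℝ) 2, AnalyticAt ℂ R (x : ℂ)) ∧
    (∀ x ∈ Icc (0 : ℝ) 2, R (x : ℂ) ∈ slitPlane) ∧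
    ∀ x ∈ Icc (0 : ℝ) 2, ∀ᶠ w in 𝓝 (x : ℂ), R w ^ N = Q w := by
  classical
  let S : Set ℂ := (fun x : ℝ => (x : ℂ)) '' Icc (0 : ℝ) 2
  have hScomp : IsCompact S := isCompact_Icc.image continuous_ofReal
  have hSconv : Convex ℝ S := by
    have h : Convex ℝ (Complex.ofRealCLM.toLinearMap '' Icc (0 : ℝ) 2) :=
      (convex_Icc (0 : ℝ) 2).linear_image _
    exact h
  let O : Set ℂ := {w | AnalyticAt ℂ Q w ∧ Q w ≠ 0}
  have hOo : IsOpen O := by
    rw [isOpen_iff_mem_nhds]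
    rintro w ⟨h1, h2⟩
    have h3 : ∀ᶠ z in 𝓝 w, AnalyticAt ℂ Q z := h1.eventually_analyticAt
    have h4 : ∀ᶠ z in 𝓝 w, Q z ≠ 0 := h1.continuousAt.eventually_ne h2
    filter_upwards [h3, h4] with z h5 h6
    exact ⟨h5, h6⟩
  have hSO : S ⊆ O := by
    rintro w ⟨x, hx, rfl⟩
    exact ⟨hQ x hx, h0 x hx⟩
  obtain ⟨δ, hδ, hδO⟩ := hScomp.exists_thickening_subset_open hOo hSO
  have hUo : IsOpen (Metric.thickening δ S) := Metric.isOpen_thickening
  have hUc : Convex ℝ (Metric.thickening δ S) := hSconv.thickening δ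
  have hSU : S ⊆ Metric.thickening δ S := Metric.self_subset_thickening hδ S
  have hne : (Metric.thickening δ S).Nonempty := by
    refine ⟨((0 : ℝ) : ℂ), hSU ⟨0, ?_, rfl⟩⟩
    constructor <;> norm_num
  obtain ⟨q, hq, hqe⟩ := Pool.Agent.Helper242.RK.exists_log hUc hUo hne (f := Q)
    (fun w hw => (hδO hw).1.differentiableAt.differentiableWithinAt) (fun w hw => (hδO hw).2)
  have hqc : ContinuousOn (fun w => ‖q w‖) S := (hq.continuousOn.mono hSU).norm
  obtain ⟨B, hB⟩ := hScomp.bddAbove_image hqc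
  obtain ⟨n, hn⟩ := exists_nat_gt (max B 1)
  have hn1 : (1 : ℝ) < n := (le_max_right _ _).trans_lt hn
  have hn0 : 0 < n := by
    have : (0 : ℝ) < n := by linarith
    exact_mod_cast this
  have hnc : (n : ℂ) ≠ 0 := by exact_mod_cast hn0.ne'
  refine ⟨n, fun w => cexp (q w / n), hn0, ?_, ?_, ?_⟩
  · intro x hx
    have hxU : (x : ℂ) ∈ Metric.thickening δ S := hSU ⟨x, hx, rfl⟩
    have hqa : AnalyticAt ℂ q (x : ℂ) := hq.analyticAt (hUo.mem_nhds hxU)
    have h1 : AnalyticAt ℂ (fun w => q w / (n : ℂ)) (x : ℂ) := hqa.div analyticAt_const hnc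
    exact h1.cexp
  · intro x hx
    have hxS : (x : ℂ) ∈ S := ⟨x, hx, rfl⟩
    have h1 : ‖q x‖ ≤ B := hB ⟨(x : ℂ), hxS, rfl⟩
    have h2 : ‖q x / n‖ < 1 := by
      rw [norm_div, Complex.norm_natCast, div_lt_one (by linarith)]
      exact h1.trans_lt ((le_max_left _ _).trans_lt hn)
    have h3 : |(q x / n).im| < 1 := (abs_im_le_norm _).trans_lt h2
    have h4 : 0 < (cexp (q x / n)).re := by
      rw [exp_re]
      refine mul_pos (Real.exp_pos _) (Real.cos_pos_of_mem_Ioo ⟨?_, ?_⟩)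
      · have := (abs_lt.1 h3).1
        have := Real.pi_gt_three
        linarith
      · have := (abs_lt.1 h3).2
        have := Real.pi_gt_three
        linarith
    rw [mem_slitPlane_iff]
    exact Or.inl h4
  · intro x hx
    have hxU : (x : ℂ) ∈ Metric.thickening δ S := hSU ⟨x, hx, rfl⟩
    filter_upwards [hUo.mem_nhds hxU] with w hw
    rw [← exp_nat_mul, mul_div_cancel₀ _ hnc, hqe w hw]

/-- roots of high order have their values in the slit plane -/
theorem root : Pool.Agent.W187.CV.S_ROOT := rootAux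

end Pool.Agent.W832.CV
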